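import Mathlib

/-!
Covering a finite abelian group by few translates of a dense set.
-/

set_option autoImplicit false

namespace Pool.Agent.H208E

open Finset

variable {G : Type} [AddCommGroup G] [Fintype G] [DecidableEq G]

theorem pick_shift (X W : Finset G) (hX : Fintype.card G ≤ 2 * X.card) :
    ∃ s : G, 2 * (W.filter (fun x => x - s ∉ X)).card ≤ W.card := by
  by_contra hcon
  push Not at hcon
  have h1 : ∀ s : G, (W.filter (fun x => x - s ∈ X)).card + (W.filter (fun x => x - s ∉ X)).card
      = W.card := fun s => Finset.card_filter_add_card_filter_not _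
  have h2 : ∑ s : G, (W.filter (fun x => x - s ∈ X)).card = W.card * X.card := by
    simp only [card_filter]
    rw [sum_comm]
    have : ∀ x ∈ W, ∑ s : G, (if x - s ∈ X then 1 else 0) = X.card := by
      intro x _
      rw [← card_filter]
      apply card_bij (fun s _ => x - s)
      · intro s hs; simpa using hs
      · intro a _ b _ hab; simpa using hab
      · intro b hb; exact ⟨x - b, by simpa using hb, by simp⟩
    rw [sum_congr rfl this, sum_const, smul_eq_mul]
  have h3 : ∀ s : G, 2 * (W.filter (fun x => x - s ∈ X)).card < W.card := by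
    intro s
    have := h1 s
    have := hcon s
    omega
  have h4 : ∑ s : G, 2 * (W.filter (fun x => x - s ∈ X)).card < ∑ _s : G, W.card := by
    apply sum_lt_sum_of_nonempty ⟨0, mem_univ _⟩
    intro s _
    exact h3 s
  rw [← mul_sum, h2, sum_const, card_univ, smul_eq_mul] at h4
  nlinarith

theorem cover_aux (X : Finset G) (hX : Fintype.card G ≤ 2 * X.card) (k : ℕ) :
    ∃ s : Fin k → G, 2 ^ k * ((univ : Finset G).filter (fun x => ∀ i, x - s i ∉ X)).card ≤
      Fintype.card G := by
  induction k with
  | zero =>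
    refine ⟨fun i => i.elim0, ?_⟩
    simp [card_univ]
  | succ k ih =>
    obtain ⟨s, hs⟩ := ih
    obtain ⟨t, ht⟩ := pick_shift X ((univ : Finset G).filter (fun x => ∀ i, x - s i ∉ X)) hX
    refine ⟨Fin.cons t s, ?_⟩
    have e : (univ : Finset G).filter (fun x => ∀ i : Fin (k + 1),
        x - (Fin.cons t s : Fin (k + 1) → G) i ∉ X) =
        ((univ : Finset G).filter (fun x => ∀ i, x - s i ∉ X)).filter (fun x => x - t ∉ X) := by
      ext x
      simp only [mem_filter, mem_univ, true_and, Fin.forall_fin_succ, Fin.cons_zero, Fin.cons_succ]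
      tauto
    rw [e, pow_succ]
    calc 2 ^ k * 2 * _ = 2 ^ k * (2 * (((univ : Finset G).filter
        (fun x => ∀ i, x - s i ∉ X)).filter (fun x => x - t ∉ X)).card) := by ring
      _ ≤ 2 ^ k * ((univ : Finset G).filter (fun x => ∀ i, x - s i ∉ X)).card :=
        Nat.mul_le_mul_left _ ht
      _ ≤ _ := hs

/-- `k` translates of `X` cover the group when `2 ^ k > |G|` -/
theorem cover (X : Finset G) (hX : Fintype.card G ≤ 2 * X.card) (k : ℕ)
    (hk : Fintype.card G < 2 ^ k) : ∃ s : Fin k → G, ∀ x, ∃ i, x - s i ∈ X := by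
  obtain ⟨s, hs⟩ := cover_aux X hX k
  refine ⟨s, ?_⟩
  by_contra hcon
  push Not at hcon
  obtain ⟨x, hx⟩ := hcon
  have h1 : 0 < ((univ : Finset G).filter (fun x => ∀ i, x - s i ∉ X)).card :=
    card_pos.mpr ⟨x, by simpa using hx⟩
  have h2 : 2 ^ k * 1 ≤ 2 ^ k * ((univ : Finset G).filter (fun x => ∀ i, x - s i ∉ X)).card :=
    Nat.mul_le_mul_left _ h1
  omega

end Pool.Agent.H208E
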