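import Mathlib

/-!
The deterministic part: two vectors of the same colour with a good midpoint are equal.
-/

set_option autoImplicit false

namespace Pool.Agent.H208E

open Finset

/-- sum of the squares of the residues modulo `M` -/
def hh {d : ℕ} (M : ℕ) (x : Fin d → ℕ) : ℕ := ∑ j, (x j % M) ^ 2

/-- `y` is close to a multiple of `M` -/
def near (M s y : ℕ) : Prop := y % M < s ∨ M ≤ y % M + s

instance (M s y : ℕ) : Decidable (near M s y) := by unfold near; infer_instance

theorem mid_mod {M x y m : ℕ} (hM : 0 < M) (h : x / M = y / M) (hm : 2 * m = x + y) :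
    2 * (m % M) = x % M + y % M := by
  have hx := Nat.div_add_mod x M
  have hy := Nat.div_add_mod y M
  have hx' := Nat.mod_lt x hM
  have hy' := Nat.mod_lt y hM
  rw [h] at hx
  set c := y / M
  set r := x % M
  set r' := y % M
  have h1 : m = M * c + (r + r') / 2 := by omega
  have h2 : (r + r') / 2 < M := by omega
  have h3 : m % M = (r + r') / 2 := by
    rw [h1, Nat.mul_add_mod, Nat.mod_eq_of_lt h2]
  rw [h3]
  omega

theorem sq_mid {M x y m : ℕ} (hM : 0 < M) (h : x / M = y / M) (hm : 2 * m = x + y) :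
    2 * ((x % M : ℕ) : ℤ) ^ 2 + 2 * ((y % M : ℕ) : ℤ) ^ 2 =
      4 * ((m % M : ℕ) : ℤ) ^ 2 + ((x : ℤ) - y) ^ 2 := by
  have h1 := mid_mod hM h hm
  have hx := Nat.div_add_mod x M
  have hy := Nat.div_add_mod y M
  rw [h] at hx
  have h2 : (x : ℤ) - y = ((x % M : ℕ) : ℤ) - ((y % M : ℕ) : ℤ) := by
    have hx' : (M : ℤ) * (y / M : ℕ) + ((x % M : ℕ) : ℤ) = x := by exact_mod_cast hx
    have hy' : (M : ℤ) * (y / M : ℕ) + ((y % M : ℕ) : ℤ) = y := by exact_mod_cast hy
    linarith
  have h3 : 2 * ((m % M : ℕ) : ℤ) = ((x % M : ℕ) : ℤ) + ((y % M : ℕ) : ℤ) := by exact_mod_cast h1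
  rw [h2]
  nlinarith [h3, congrArg (fun z => z ^ 2) h3]

theorem sum_sq_mid {d M : ℕ} {x y m : Fin d → ℕ} (hM : 0 < M) (h : ∀ j, x j / M = y j / M)
    (hm : ∀ j, 2 * m j = x j + y j) :
    ∑ j, (((x j : ℤ) - y j) ^ 2 : ℤ) = 2 * (hh M x : ℤ) + 2 * (hh M y : ℤ) - 4 * (hh M m : ℤ) := by
  unfold hh
  push_cast
  rw [mul_sum, mul_sum, mul_sum, ← sum_add_distrib, ← sum_sub_distrib]
  refine sum_congr rfl fun j _ => ?_
  have := sq_mid hM (h j) (hm j)
  push_cast at this
  linarith

theorem cross_lt {M s x y m : ℕ} (hM : 0 < M) (hs : s ≤ M) (h : x / M < y / M)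
    (hm : 2 * m = x + y) (hd : y < x + 2 * s) : near M s m := by
  have hx := Nat.div_add_mod x M
  have hy := Nat.div_add_mod y M
  have hx' := Nat.mod_lt x hM
  have hy' := Nat.mod_lt y hM
  have hcx : x < M * (y / M) := by
    have : M * (x / M + 1) ≤ M * (y / M) := Nat.mul_le_mul_left _ h
    rw [mul_add] at this
    omega
  unfold near
  set c := y / M with hc
  have hcpos : 0 < c := lt_of_le_of_lt (Nat.zero_le _) h
  obtain ⟨c', hc'⟩ : ∃ c', c = c' + 1 := ⟨c - 1, by omega⟩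
  by_cases hmc : M * c ≤ m
  · left
    obtain ⟨r, hr⟩ := Nat.exists_eq_add_of_le hmc
    have h1 : r < M := by omega
    rw [hr, Nat.mul_add_mod, Nat.mod_eq_of_lt h1]
    omega
  · right
    have h2 : M * c = M * c' + M := by rw [hc']; ring
    obtain ⟨r, hr⟩ := Nat.exists_eq_add_of_le (show M * c' ≤ m by omega)
    have h1 : r < M := by omega
    have h3 : m % M = r := by rw [hr, Nat.mul_add_mod, Nat.mod_eq_of_lt h1]
    rw [h3]
    omega

theorem cross {M s x y m : ℕ} (hM : 0 < M) (hs : s ≤ M) (h : x / M ≠ y / M)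
    (hm : 2 * m = x + y) (hd : |(x : ℤ) - y| < 2 * s) : near M s m := by
  rw [abs_lt] at hd
  rcases lt_or_gt_of_ne h with h | h
  · exact cross_lt hM hs h hm (by omega)
  · exact cross_lt hM hs h (by omega) (by omega)

/-- few coordinates are far apart -/
theorem far_card {d : ℕ} {x y : Fin d → ℕ} {s : ℕ} {B : ℝ}
    (hB : ((∑ j, (((x j : ℤ) - y j) ^ 2 : ℤ) : ℤ) : ℝ) ≤ B) :
    (((univ : Finset (Fin d)).filter (fun j => (2 * s : ℤ) ≤ |(x j : ℤ) - y j|)).card : ℝ) *
      (4 * (s : ℝ) ^ 2) ≤ B := by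
  refine le_trans ?_ hB
  have h1 : (((univ : Finset (Fin d)).filter (fun j => (2 * s : ℤ) ≤ |(x j : ℤ) - y j|)).card : ℤ) *
      (4 * (s : ℤ) ^ 2) ≤ ∑ j, (((x j : ℤ) - y j) ^ 2 : ℤ) := by
    calc (((univ : Finset (Fin d)).filter
          (fun j => (2 * s : ℤ) ≤ |(x j : ℤ) - y j|)).card : ℤ) * (4 * (s : ℤ) ^ 2)
        = ∑ j ∈ (univ : Finset (Fin d)).filter (fun j => (2 * s : ℤ) ≤ |(x j : ℤ) - y j|),
            (4 * (s : ℤ) ^ 2) := by simp
      _ ≤ ∑ j ∈ (univ : Finset (Fin d)).filter (fun j => (2 * s : ℤ) ≤ |(x j : ℤ) - y j|),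
            (((x j : ℤ) - y j) ^ 2 : ℤ) := by
          apply sum_le_sum
          intro j hj
          rw [mem_filter] at hj
          rw [← sq_abs ((x j : ℤ) - y j)]
          have h2 : (0 : ℤ) ≤ 2 * s := by positivity
          nlinarith [hj.2]
      _ ≤ _ := sum_le_sum_of_subset_of_nonneg (filter_subset _ _) fun _ _ _ => sq_nonneg _
  exact_mod_cast h1

theorem four_pow (n : ℕ) : (4 : ℝ) ^ n = ((2 : ℝ) ^ n) ^ 2 := by
  rw [← pow_mul, mul_comm, pow_mul]
  norm_num

/-- two vectors of the same colour with a good midpoint are equal -/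
theorem mid_eq {d e f a n1 nH n0 : ℕ} (hf : f ≤ e) {x y m : Fin d → ℕ} {A : ℕ → ℝ} {τ : ℝ}
    (hxa : ∀ j, x j < 2 ^ (e + a)) (hya : ∀ j, y j < 2 ^ (e + a))
    (hm : ∀ j, 2 * m j = x j + y j)
    (hx : ∀ i ≤ a, (hh (2 ^ (e + i)) x : ℝ) ≤ A i + τ * ((2 : ℝ) ^ (e + i)) ^ 2)
    (hy : ∀ i ≤ a, (hh (2 ^ (e + i)) y : ℝ) ≤ A i + τ * ((2 : ℝ) ^ (e + i)) ^ 2)
    (hg : ∀ i ≤ a, A i - τ * ((2 : ℝ) ^ (e + i)) ^ 2 ≤ (hh (2 ^ (e + i)) m : ℝ))
    (hn : ∀ i < a, ((univ : Finset (Fin d)).filter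
      (fun j => near (2 ^ (e + i)) (2 ^ (e + i - f)) (m j))).card ≤ n1)
    (hnH : (n1 : ℝ) + 8 * τ * 4 ^ f ≤ nH) (hn0 : 2 * τ * 4 ^ e ≤ n0)
    (hb : ∀ i < a, ((univ : Finset (Fin d)).filter
      (fun j => x j / 2 ^ (e + i) % 2 ≠ y j / 2 ^ (e + i) % 2)).card ≤ nH →
        ∀ j, x j / 2 ^ (e + i) % 2 = y j / 2 ^ (e + i) % 2)
    (hc : ((univ : Finset (Fin d)).filter (fun j => x j % 2 ^ e ≠ y j % 2 ^ e)).card ≤ n0 →
      ∀ j, x j % 2 ^ e = y j % 2 ^ e) : x = y := by
  have hsum : ∀ i ≤ a, (∀ j, x j / 2 ^ (e + i) = y j / 2 ^ (e + i)) →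
      ((∑ j, (((x j : ℤ) - y j) ^ 2 : ℤ) : ℤ) : ℝ) ≤ 8 * (τ * ((2 : ℝ) ^ (e + i)) ^ 2) := by
    intro i hi h
    rw [sum_sq_mid (by positivity) h hm]
    push_cast
    linarith [hx i hi, hy i hi, hg i hi]
  -- equality of the quotients, downwards
  have key : ∀ k ≤ a, ∀ j, x j / 2 ^ (e + (a - k)) = y j / 2 ^ (e + (a - k)) := by
    intro k
    induction k with
    | zero =>
      intro _ j
      rw [Nat.sub_zero, Nat.div_eq_of_lt (hxa j), Nat.div_eq_of_lt (hya j)]
    | succ k ih =>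
      intro hk
      have ih' := ih (by omega)
      obtain ⟨i, hi⟩ : ∃ i, i = a - (k + 1) := ⟨_, rfl⟩
      have hi1 : a - k = i + 1 := by omega
      have hia : i < a := by omega
      rw [hi1] at ih'
      rw [← hi]
      have hS := hsum (i + 1) (by omega) ih'
      -- the crossing coordinates
      have hJ : ((univ : Finset (Fin d)).filter
          (fun j => x j / 2 ^ (e + i) % 2 ≠ y j / 2 ^ (e + i) % 2)).card ≤ nH := by
        have hsub : (univ : Finset (Fin d)).filter
            (fun j => x j / 2 ^ (e + i) % 2 ≠ y j / 2 ^ (e + i) % 2) ⊆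
            (univ : Finset (Fin d)).filter
              (fun j => near (2 ^ (e + i)) (2 ^ (e + i - f)) (m j)) ∪
            (univ : Finset (Fin d)).filter
              (fun j => (2 * (2 ^ (e + i - f) : ℕ) : ℤ) ≤ |(x j : ℤ) - y j|) := by
          intro j hj
          rw [mem_filter] at hj
          rw [mem_union, mem_filter, mem_filter]
          by_contra hcon
          push Not at hcon
          have h1 := hcon.1 (mem_univ _)
          have h2 := hcon.2 (mem_univ _)
          apply h1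
          refine cross (by positivity) (Nat.pow_le_pow_right (by norm_num) (by omega)) ?_
            (hm j) h2
          intro h
          exact hj.2 (by rw [h])
        have h1 := (card_le_card hsub).trans (card_union_le _ _)
        have h2 := hn i hia
        have h3 := far_card (s := 2 ^ (e + i - f)) hS
        have h4 : (((univ : Finset (Fin d)).filter
            (fun j => (2 * (2 ^ (e + i - f) : ℕ) : ℤ) ≤ |(x j : ℤ) - y j|)).card : ℝ) ≤
            8 * τ * 4 ^ f := by
          have e1 : 8 * (τ * ((2 : ℝ) ^ (e + (i + 1))) ^ 2) =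
              8 * τ * 4 ^ f * (4 * (((2 ^ (e + i - f) : ℕ) : ℝ)) ^ 2) := by
            have e2 : e + (i + 1) = (e + i - f) + f + 1 := by omega
            rw [e2, four_pow f]
            push_cast
            rw [pow_succ, pow_add]
            ring
          rw [e1] at h3
          exact le_of_mul_le_mul_right h3 (by positivity)
        have h5 : (((univ : Finset (Fin d)).filter
          (fun j => x j / 2 ^ (e + i) % 2 ≠ y j / 2 ^ (e + i) % 2)).card : ℝ) ≤ nH := by
          refine le_trans ?_ hnH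
          have h6 : (((univ : Finset (Fin d)).filter
            (fun j => x j / 2 ^ (e + i) % 2 ≠ y j / 2 ^ (e + i) % 2)).card : ℝ) ≤
            (((univ : Finset (Fin d)).filter
              (fun j => near (2 ^ (e + i)) (2 ^ (e + i - f)) (m j))).card : ℝ) +
            (((univ : Finset (Fin d)).filter
              (fun j => (2 * (2 ^ (e + i - f) : ℕ) : ℤ) ≤ |(x j : ℤ) - y j|)).card : ℝ) := by
            exact_mod_cast h1
          have h7 : (((univ : Finset (Fin d)).filter
              (fun j => near (2 ^ (e + i)) (2 ^ (e + i - f)) (m j))).card : ℝ) ≤ n1 := by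
            exact_mod_cast h2
          linarith
        exact_mod_cast h5
      have hbit := hb i hia hJ
      intro j
      have h1 := ih' j
      have e1 : 2 ^ (e + (i + 1)) = 2 ^ (e + i) * 2 := by rw [← add_assoc, pow_succ]
      rw [e1, ← Nat.div_div_eq_div_mul, ← Nat.div_div_eq_div_mul] at h1
      have h2 := hbit j
      omega
  have h0 := key a le_rfl
  rw [Nat.sub_self] at h0
  have hS := hsum 0 (Nat.zero_le _) h0
  rw [Nat.add_zero] at hS h0
  have hcard : ((univ : Finset (Fin d)).filter (fun j => x j % 2 ^ e ≠ y j % 2 ^ e)).card ≤ n0 := by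
    have hsub : (univ : Finset (Fin d)).filter (fun j => x j % 2 ^ e ≠ y j % 2 ^ e) ⊆
        (univ : Finset (Fin d)).filter (fun j => (2 * (1 : ℕ) : ℤ) ≤ |(x j : ℤ) - y j|) := by
      intro j hj
      rw [mem_filter] at hj ⊢
      refine ⟨mem_univ _, ?_⟩
      have h1 : x j ≠ y j := fun h => hj.2 (by rw [h])
      have h2 := hm j
      rcases abs_cases ((x j : ℤ) - y j) with ⟨h3, h4⟩ | ⟨h3, h4⟩ <;> rw [h3] <;> omega
    have h1 := card_le_card hsub
    have h2 := far_card (s := 1) hS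
    have h3 : (((univ : Finset (Fin d)).filter
        (fun j => (2 * (1 : ℕ) : ℤ) ≤ |(x j : ℤ) - y j|)).card : ℝ) ≤ 2 * τ * 4 ^ e := by
      have e1 : 8 * (τ * ((2 : ℝ) ^ e) ^ 2) = 2 * τ * 4 ^ e * (4 * (((1 : ℕ) : ℝ)) ^ 2) := by
        rw [four_pow e]
        push_cast
        ring
      rw [e1] at h2
      exact le_of_mul_le_mul_right h2 (by norm_num)
    have h4 : (((univ : Finset (Fin d)).filter
        (fun j => x j % 2 ^ e ≠ y j % 2 ^ e)).card : ℝ) ≤ n0 := by
      refine le_trans ?_ (h3.trans hn0)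
      exact_mod_cast h1
    exact_mod_cast h4
  have h1 := hc hcard
  funext j
  have h2 := Nat.div_add_mod (x j) (2 ^ e)
  have h3 := Nat.div_add_mod (y j) (2 ^ e)
  rw [h0 j, h1 j] at h2
  omega

end Pool.Agent.H208E
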