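import Pool.Agent.H208E.Hash
import Pool.Agent.H208E.Mid
import Pool.Agent.H208E.Cov

/-!
The colouring of the cyclic group of order `Q ^ d`, `Q = 2 ^ (e + a)`, and of `{0, …, N}`.
-/

set_option autoImplicit false

namespace Pool.Agent.H208E

open Finset

/-- the vectors which are not too long at all scales -/
def Xprop (d e a : ℕ) (A : ℕ → ℝ) (τ : ℝ) (x : Fin d → ℕ) : Prop :=
  ∀ i ≤ a, (hh (2 ^ (e + i)) x : ℝ) ≤ A i + τ * ((2 : ℝ) ^ (e + i)) ^ 2

/-- the good midpoints -/
def Gprop (d e a f n1 : ℕ) (A : ℕ → ℝ) (τ : ℝ) (m : Fin d → ℕ) : Prop :=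
  (∀ i ≤ a, A i - τ * ((2 : ℝ) ^ (e + i)) ^ 2 ≤ (hh (2 ^ (e + i)) m : ℝ)) ∧
  ∀ i < a, ((univ : Finset (Fin d)).filter
      (fun j => near (2 ^ (e + i)) (2 ^ (e + i - f)) (m j))).card ≤ n1

/-- value of a digit vector -/
def val {d Q : ℕ} (x : Fin d → Fin Q) : ℕ := ∑ j, (x j : ℕ) * Q ^ (j : ℕ)

/-- the digits of an element of the cyclic group -/
def dig {d Q : ℕ} [NeZero (Q ^ d)] (z : ZMod (Q ^ d)) : Fin d → Fin Q :=
  finFunctionFinEquiv.symm ⟨z.val, ZMod.val_lt z⟩

theorem val_dig {d Q : ℕ} [NeZero (Q ^ d)] (z : ZMod (Q ^ d)) : val (dig z) = z.val := by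
  unfold val dig
  have h := finFunctionFinEquiv_apply
    (finFunctionFinEquiv.symm (⟨z.val, ZMod.val_lt z⟩ : Fin (Q ^ d)))
  rw [Equiv.apply_symm_apply] at h
  exact h.symm

theorem cast_val_dig {d Q : ℕ} [NeZero (Q ^ d)] (z : ZMod (Q ^ d)) :
    ((val (dig z) : ℕ) : ZMod (Q ^ d)) = z := by
  rw [val_dig, ZMod.natCast_zmod_val]

theorem dig_inj {d Q : ℕ} [NeZero (Q ^ d)] {z z' : ZMod (Q ^ d)} (h : dig z = dig z') :
    z = z' := by
  rw [← cast_val_dig z, ← cast_val_dig z', h]

theorem dig_surj {d Q : ℕ} [NeZero (Q ^ d)] (x : Fin d → Fin Q) :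
    ∃ z : ZMod (Q ^ d), dig z = x := by
  refine ⟨((finFunctionFinEquiv x : Fin (Q ^ d)) : ℕ), ?_⟩
  unfold dig
  rw [Equiv.symm_apply_eq]
  apply Fin.ext
  exact ZMod.val_cast_of_lt (finFunctionFinEquiv x).isLt

theorem card_filter_dig {d Q : ℕ} [NeZero (Q ^ d)] (P : (Fin d → Fin Q) → Prop)
    [DecidablePred P] :
    ((univ : Finset (ZMod (Q ^ d))).filter (fun z => P (dig z))).card =
      ((univ : Finset (Fin d → Fin Q)).filter P).card := by
  apply card_bij (fun z _ => dig z)
  · intro z hz; simpa using hz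
  · intro z _ z' _ h; exact dig_inj h
  · intro x hx
    obtain ⟨z, rfl⟩ := dig_surj x
    exact ⟨z, by simpa using hx, rfl⟩

theorem colour_zmod {d e f a n1 nH n0 k Q : ℕ} {A : ℕ → ℝ} {τ : ℝ} (hf : f ≤ e)
    (hQ : Q = 2 ^ (e + a)) [NeZero (Q ^ d)]
    (hnH : (n1 : ℝ) + 8 * τ * 4 ^ f ≤ nH) (hn0 : 2 * τ * 4 ^ e ≤ n0)
    (X B : Finset (Fin d → Fin Q))
    (hX : ∀ x ∈ X, Xprop d e a A τ (fun j => (x j : ℕ)))
    (hB : ∀ m, m ∉ B → Gprop d e a f n1 A τ (fun j => (m j : ℕ)))
    (hXc : Q ^ d ≤ 2 * X.card) (hk : Q ^ d < 2 ^ k) :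
    ∃ (c : ZMod (Q ^ d) → Fin k × (Fin d → Fin 2) ×
        (Fin a → Fin ((d * 2 + 1) ^ nH + 1)) × Fin ((d * 2 ^ e + 1) ^ n0 + 1))
      (U : Finset (ZMod (Q ^ d))), U.card ≤ k * B.card ∧
      ∀ z z', z ≠ z' → c z = c z' → z + z' ∈ U := by
  classical
  set XZ : Finset (ZMod (Q ^ d)) := univ.filter (fun z => dig z ∈ X) with hXZ
  have hXZc : XZ.card = X.card := by
    rw [hXZ, card_filter_dig (fun x => x ∈ X)]
    congr 1
    ext x; simp
  obtain ⟨s, hs⟩ := cover XZ (by rw [ZMod.card, hXZc]; exact hXc) k (by rw [ZMod.card]; exact hk)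
  choose idx hidx using hs
  have hcodeG := exists_code d (Fin 2) nH
  rw [Fintype.card_fin] at hcodeG
  obtain ⟨G, hG⟩ := hcodeG
  have hcodeG0 := exists_code d (Fin (2 ^ e)) n0
  rw [Fintype.card_fin] at hcodeG0
  obtain ⟨G0, hG0⟩ := hcodeG0
  refine ⟨fun z => (idx z, fun j => ⟨(dig (z - s (idx z)) j : ℕ) % 2, Nat.mod_lt _ (by norm_num)⟩,
    fun i => G (fun j => ⟨(dig (z - s (idx z)) j : ℕ) / 2 ^ (e + i) % 2,
      Nat.mod_lt _ (by norm_num)⟩),
    G0 (fun j => ⟨(dig (z - s (idx z)) j : ℕ) % 2 ^ e, Nat.mod_lt _ (by positivity)⟩)),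
    ((univ : Finset (Fin k)) ×ˢ B).image (fun p => s p.1 + s p.1 + ((2 * val p.2 : ℕ) : ZMod _)),
    ?_, ?_⟩
  · refine card_image_le.trans (le_of_eq ?_)
    rw [card_product, card_univ, Fintype.card_fin]
  · intro z z' hne hc
    simp only [Prod.mk.injEq] at hc
    obtain ⟨hi, hp, hb, hr⟩ := hc
    rw [← hi] at hp hb hr
    set t := s (idx z) with ht
    set x := dig (z - t) with hx
    set y := dig (z' - t) with hy
    have hxX : Xprop d e a A τ (fun j => (x j : ℕ)) := by
      have := hidx z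
      rw [hXZ, mem_filter] at this
      exact hX _ this.2
    have hyX : Xprop d e a A τ (fun j => (y j : ℕ)) := by
      have := hidx z'
      rw [hXZ, mem_filter, ← hi] at this
      exact hX _ this.2
    have hpar : ∀ j, (x j : ℕ) % 2 = (y j : ℕ) % 2 := by
      intro j
      have := congrFun hp j
      simpa [Fin.ext_iff] using this
    have hxlt : ∀ j, (x j : ℕ) < 2 ^ (e + a) := fun j => hQ ▸ (x j).isLt
    have hylt : ∀ j, (y j : ℕ) < 2 ^ (e + a) := fun j => hQ ▸ (y j).isLt
    set m : Fin d → Fin Q := fun j => ⟨((x j : ℕ) + (y j : ℕ)) / 2, by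
      have := (x j).isLt; have := (y j).isLt; omega⟩ with hm
    have hm2 : ∀ j, 2 * (m j : ℕ) = (x j : ℕ) + (y j : ℕ) := by
      intro j
      have := hpar j
      simp only [hm]
      omega
    have hmB : m ∈ B := by
      by_contra hmB
      have hg := hB m hmB
      apply hne
      have hxy : (fun j => (x j : ℕ)) = (fun j => (y j : ℕ)) := by
        refine mid_eq (m := fun j => (m j : ℕ)) hf hxlt hylt hm2 hxX hyX hg.1 hg.2 hnH hn0 ?_ ?_
        · intro i hia hcard j
          have h1 := congrFun hb ⟨i, hia⟩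
          have h2 := hG _ _ ?_ h1
          · have := congrFun h2 j
            simpa [Fin.ext_iff] using this
          · refine le_trans (le_of_eq ?_) hcard
            unfold hammingDist
            congr 1
            ext j
            simp [Fin.ext_iff]
        · intro hcard j
          have h2 := hG0 _ _ ?_ hr
          · have := congrFun h2 j
            simpa [Fin.ext_iff] using this
          · refine le_trans (le_of_eq ?_) hcard
            unfold hammingDist
            congr 1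
            ext j
            simp [Fin.ext_iff]
      have hxy' : x = y := by
        funext j
        exact Fin.ext (congrFun hxy j)
      have := dig_inj hxy'
      exact sub_left_injective this
    rw [mem_image]
    refine ⟨(idx z, m), by simp [hmB], ?_⟩
    have h1 : 2 * val m = val x + val y := by
      unfold val
      rw [mul_sum, ← sum_add_distrib]
      refine sum_congr rfl fun j _ => ?_
      rw [← mul_assoc, hm2 j, add_mul]
    simp only
    rw [h1, Nat.cast_add, hx, hy, cast_val_dig, cast_val_dig, ← ht]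
    ring

/-- from the cyclic group to an interval -/
theorem colour_nat {n : ℕ} [NeZero n] {κ : Type} (c : ZMod n → κ) (U : Finset (ZMod n))
    (h : ∀ z z', z ≠ z' → c z = c z' → z + z' ∈ U) (N : ℕ) :
    ∃ (c' : ℕ → Fin (N / n + 1) × κ) (T : Finset ℕ), T.card ≤ (N / n + 1) * (2 * U.card) ∧
      ∀ x ≤ N, ∀ y ≤ N, x ≠ y → c' x = c' y → x + y ∈ T := by
  classical
  have hn : 0 < n := Nat.pos_of_ne_zero (NeZero.ne n)
  refine ⟨fun x => (⟨min (x / n) (N / n), by omega⟩, c (x : ZMod n)),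
    ((range (N / n + 1)) ×ˢ ((range 2) ×ˢ U)).image
      (fun p => (2 * p.1 + p.2.1) * n + p.2.2.val), ?_, ?_⟩
  · refine card_image_le.trans (le_of_eq ?_)
    rw [card_product, card_product, card_range, card_range]
  · intro x hx y hy hne hc
    simp only [Prod.mk.injEq, Fin.mk.injEq] at hc
    obtain ⟨h1, h2⟩ := hc
    have hx1 : x / n ≤ N / n := Nat.div_le_div_right hx
    have hy1 : y / n ≤ N / n := Nat.div_le_div_right hy
    rw [min_eq_left hx1, min_eq_left hy1] at h1
    have hxm := Nat.div_add_mod x n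
    have hym := Nat.div_add_mod y n
    have hxl := Nat.mod_lt x hn
    have hyl := Nat.mod_lt y hn
    have hzne : (x : ZMod n) ≠ (y : ZMod n) := by
      intro h3
      rw [ZMod.natCast_eq_natCast_iff'] at h3
      apply hne
      rw [← hxm, ← hym, h1, h3]
    have hU := h _ _ hzne h2
    rw [mem_image]
    have hval : ((x : ZMod n) + (y : ZMod n)).val = (x + y) % n := by
      rw [← Nat.cast_add, ZMod.val_natCast]
    have hsum := Nat.div_add_mod (x + y) n
    have hlow : 2 * (x / n) ≤ (x + y) / n := by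
      rw [Nat.le_div_iff_mul_le hn]
      have : 2 * (x / n) * n = n * (x / n) + n * (y / n) := by rw [← h1]; ring
      omega
    have hup : (x + y) / n < 2 * (x / n) + 2 := by
      rw [Nat.div_lt_iff_lt_mul hn]
      have : (2 * (x / n) + 2) * n = n * (x / n) + n * (y / n) + 2 * n := by rw [← h1]; ring
      omega
    refine ⟨(x / n, ((x + y) / n - 2 * (x / n), (x : ZMod n) + (y : ZMod n))), ?_, ?_⟩
    · simp only [mem_product, mem_range]
      refine ⟨by omega, by omega, hU⟩
    · simp only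
      rw [hval, Nat.add_sub_cancel' hlow, mul_comm]
      exact hsum

end Pool.Agent.H208E
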