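import Mathlib

/-!
Concentration of sums over the cube `Fin d → Fin Q` (counting form).
-/

set_option autoImplicit false

namespace Pool.Agent.H208E

open Finset

theorem exp_le_cosh_sinh {B y lam : ℝ} (hB : 0 < B) (hy : |y| ≤ B) :
    Real.exp (lam * y) ≤ Real.cosh (lam * B) + y / B * Real.sinh (lam * B) := by
  have h1 := abs_le.mp hy
  have ha : 0 ≤ (1 + y / B) / 2 := by
    have : -1 ≤ y / B := by rw [le_div_iff₀ hB]; linarith [h1.1]
    linarith
  have hb : 0 ≤ (1 - y / B) / 2 := by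
    have : y / B ≤ 1 := by rw [div_le_iff₀ hB]; linarith [h1.2]
    linarith
  have hab : (1 + y / B) / 2 + (1 - y / B) / 2 = 1 := by ring
  have hc := convexOn_exp.2 (Set.mem_univ (lam * B)) (Set.mem_univ (-(lam * B))) ha hb hab
  simp only [smul_eq_mul] at hc
  have e1 : (1 + y / B) / 2 * (lam * B) + (1 - y / B) / 2 * -(lam * B) = lam * y := by
    field_simp
    ring
  rw [e1] at hc
  refine hc.trans (le_of_eq ?_)
  rw [Real.cosh_eq, Real.sinh_eq]
  ring

theorem mgf_le {Q : ℕ} (g : Fin Q → ℝ) {B : ℝ} (hB : 0 < B) (hg : ∀ a, |g a| ≤ B)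
    (h0 : ∑ a, g a = 0) (lam : ℝ) :
    ∑ a, Real.exp (lam * g a) ≤ (Q : ℝ) * Real.exp ((lam * B) ^ 2 / 2) := by
  calc ∑ a, Real.exp (lam * g a)
      ≤ ∑ a, (Real.cosh (lam * B) + g a / B * Real.sinh (lam * B)) :=
        sum_le_sum fun a _ => exp_le_cosh_sinh hB (hg a)
    _ = (Q : ℝ) * Real.cosh (lam * B) := by
        rw [sum_add_distrib, ← sum_mul, ← sum_div, h0]
        simp
    _ ≤ _ := by
        apply mul_le_mul_of_nonneg_left (Real.cosh_le_exp_half_sq _) (Nat.cast_nonneg _)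

/-- Hoeffding's inequality in counting form -/
theorem count_tail {Q d : ℕ} (g : Fin Q → ℝ) {B : ℝ} (hB : 0 < B)
    (hg : ∀ a, |g a| ≤ B) (h0 : ∑ a, g a = 0) (hd : 0 < d) {T : ℝ} (hT : 0 ≤ T) :
    (((univ : Finset (Fin d → Fin Q)).filter (fun x => T ≤ ∑ j, g (x j))).card : ℝ) ≤
      (Q : ℝ) ^ d * Real.exp (-(T ^ 2 / (2 * d * B ^ 2))) := by
  have hdr : (0 : ℝ) < d := by exact_mod_cast hd
  set lam : ℝ := T / (d * B ^ 2) with hlam
  have hlam0 : 0 ≤ lam := by positivity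
  have h1 : (((univ : Finset (Fin d → Fin Q)).filter (fun x => T ≤ ∑ j, g (x j))).card : ℝ) *
      Real.exp (lam * T) ≤ (∑ a, Real.exp (lam * g a)) ^ d := by
    calc (((univ : Finset (Fin d → Fin Q)).filter (fun x => T ≤ ∑ j, g (x j))).card : ℝ) *
        Real.exp (lam * T)
        = ∑ x ∈ (univ : Finset (Fin d → Fin Q)).filter (fun x => T ≤ ∑ j, g (x j)),
            Real.exp (lam * T) := by simp
      _ ≤ ∑ x ∈ (univ : Finset (Fin d → Fin Q)).filter (fun x => T ≤ ∑ j, g (x j)),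
            Real.exp (lam * ∑ j, g (x j)) := by
          apply sum_le_sum
          intro x hx
          rw [mem_filter] at hx
          rw [Real.exp_le_exp]
          exact mul_le_mul_of_nonneg_left hx.2 hlam0
      _ ≤ ∑ x : Fin d → Fin Q, Real.exp (lam * ∑ j, g (x j)) :=
          sum_le_sum_of_subset_of_nonneg (filter_subset _ _) fun _ _ _ => (Real.exp_pos _).le
      _ = ∑ x : Fin d → Fin Q, ∏ j, Real.exp (lam * g (x j)) := by
          refine sum_congr rfl fun x _ => ?_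
          rw [mul_sum, Real.exp_sum]
      _ = _ := by
          rw [Fintype.sum_pow]
  have h2 : (∑ a, Real.exp (lam * g a)) ^ d ≤
      ((Q : ℝ) * Real.exp ((lam * B) ^ 2 / 2)) ^ d :=
    pow_le_pow_left₀ (sum_nonneg fun _ _ => (Real.exp_pos _).le) (mgf_le g hB hg h0 lam) d
  have h3 := h1.trans h2
  rw [mul_pow, ← Real.exp_nat_mul] at h3
  have h4 : 0 < Real.exp (lam * T) := Real.exp_pos _
  rw [← le_div_iff₀ h4] at h3
  refine h3.trans (le_of_eq ?_)
  rw [mul_div_assoc, ← Real.exp_sub]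
  congr 2
  rw [hlam]
  field_simp
  ring

/-- upper tail: `f` takes values in `[0, B]` with average `μ` -/
theorem count_upper {Q d : ℕ} (hQ : 0 < Q) (f : Fin Q → ℝ) {B : ℝ} (hB : 0 < B)
    (hf0 : ∀ a, 0 ≤ f a) (hf : ∀ a, f a ≤ B) (hd : 0 < d) {T : ℝ} (hT : 0 ≤ T) :
    (((univ : Finset (Fin d → Fin Q)).filter
      (fun x => d * ((∑ a, f a) / Q) + T ≤ ∑ j, f (x j))).card : ℝ) ≤
      (Q : ℝ) ^ d * Real.exp (-(T ^ 2 / (2 * d * B ^ 2))) := by
  have hQr : (0 : ℝ) < Q := by exact_mod_cast hQ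
  set μ : ℝ := (∑ a, f a) / Q with hμ
  have hμ0 : 0 ≤ μ := div_nonneg (sum_nonneg fun a _ => hf0 a) hQr.le
  have hμB : μ ≤ B := by
    rw [hμ, div_le_iff₀ hQr]
    calc ∑ a, f a ≤ ∑ _a : Fin Q, B := sum_le_sum fun a _ => hf a
      _ = B * Q := by simp [mul_comm]
  have h := count_tail (d := d) (fun a => f a - μ) hB (fun a => by
    rw [abs_le]; constructor <;> linarith [hf0 a, hf a]) (by
    rw [sum_sub_distrib]
    simp only [sum_const, card_univ, Fintype.card_fin, nsmul_eq_mul]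
    rw [hμ]; field_simp; ring) hd hT
  refine le_trans (le_of_eq ?_) h
  congr 2
  ext x
  simp only [mem_filter, mem_univ, true_and]
  rw [sum_sub_distrib]
  simp only [sum_const, card_univ, Fintype.card_fin, nsmul_eq_mul]
  constructor <;> intro h <;> linarith

/-- lower tail -/
theorem count_lower {Q d : ℕ} (hQ : 0 < Q) (f : Fin Q → ℝ) {B : ℝ} (hB : 0 < B)
    (hf0 : ∀ a, 0 ≤ f a) (hf : ∀ a, f a ≤ B) (hd : 0 < d) {T : ℝ} (hT : 0 ≤ T) :
    (((univ : Finset (Fin d → Fin Q)).filter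
      (fun x => ∑ j, f (x j) ≤ d * ((∑ a, f a) / Q) - T)).card : ℝ) ≤
      (Q : ℝ) ^ d * Real.exp (-(T ^ 2 / (2 * d * B ^ 2))) := by
  have hQr : (0 : ℝ) < Q := by exact_mod_cast hQ
  set μ : ℝ := (∑ a, f a) / Q with hμ
  have hμ0 : 0 ≤ μ := div_nonneg (sum_nonneg fun a _ => hf0 a) hQr.le
  have hμB : μ ≤ B := by
    rw [hμ, div_le_iff₀ hQr]
    calc ∑ a, f a ≤ ∑ _a : Fin Q, B := sum_le_sum fun a _ => hf a
      _ = B * Q := by simp [mul_comm]
  have h := count_tail (d := d) (fun a => μ - f a) hB (fun a => by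
    rw [abs_le]; constructor <;> linarith [hf0 a, hf a]) (by
    rw [sum_sub_distrib]
    simp only [sum_const, card_univ, Fintype.card_fin, nsmul_eq_mul]
    rw [hμ]; field_simp; ring) hd hT
  refine le_trans (le_of_eq ?_) h
  congr 2
  ext x
  simp only [mem_filter, mem_univ, true_and]
  rw [sum_sub_distrib]
  simp only [sum_const, card_univ, Fintype.card_fin, nsmul_eq_mul]
  constructor <;> intro h <;> linarith

end Pool.Agent.H208E
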