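import Mathlib

/-!
Passage from `Nat.log 2 N` to real logarithms.
-/

set_option autoImplicit false

namespace Pool.Agent.H208E

open Filter

theorem log_large (b : ℕ) : ∀ᶠ N : ℕ in atTop, b ≤ Nat.log 2 N := by
  filter_upwards [eventually_ge_atTop (2 ^ b)] with N hN
  exact Nat.le_log_of_pow_le (by norm_num) hN

theorem exists_root (p L : ℕ) (hp : 0 < p) : ∃ r, r ^ p ≤ L ∧ L < (r + 1) ^ p := by
  classical
  have hex : ∃ r, L < (r + 1) ^ p :=
    ⟨L, lt_of_lt_of_le (Nat.lt_succ_self L) (Nat.le_self_pow hp.ne' _)⟩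
  refine ⟨Nat.find hex, ?_, Nat.find_spec hex⟩
  rcases Nat.eq_zero_or_pos (Nat.find hex) with h | h
  · rw [h, zero_pow hp.ne']
    exact Nat.zero_le _
  · have := Nat.find_min hex (m := Nat.find hex - 1) (by omega)
    rw [Nat.sub_add_cancel h] at this
    omega

theorem log_le {N : ℕ} (hN : 1 ≤ N) : ((Nat.log 2 N : ℕ) : ℝ) ≤ 2 * Real.log N := by
  have h1 : 2 ^ Nat.log 2 N ≤ N := Nat.pow_log_le_self 2 (by omega)
  have h2 : ((2 : ℝ)) ^ Nat.log 2 N ≤ N := by exact_mod_cast h1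
  have h3 := Real.log_le_log (by positivity) h2
  rw [Real.log_pow] at h3
  have h4 := Real.log_two_gt_d9
  have h5 : (0 : ℝ) ≤ (Nat.log 2 N : ℕ) := Nat.cast_nonneg _
  nlinarith

end Pool.Agent.H208E
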