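import Mathlib

/-!
Greedy codes: a colouring of `Fin d → α` which separates vectors at small Hamming distance.
-/

set_option autoImplicit false

namespace Pool.Agent.H208E

open Finset

theorem greedy_colour {V : Type} [Fintype V] [DecidableEq V] (r : V → V → Prop)
    (hr : ∀ x y, r x y → r y x) (D : ℕ)
    (hD : ∀ x, ∃ B : Finset V, (∀ y, r x y → y ∈ B) ∧ B.card ≤ D) :
    ∃ G : V → Fin (D + 1), ∀ x y, x ≠ y → r x y → G x ≠ G y := by
  classical
  have key : ∀ s : Finset V, ∃ G : V → Fin (D + 1), ∀ x ∈ s, ∀ y ∈ s, x ≠ y → r x y →
      G x ≠ G y := by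
    intro s
    induction s using Finset.induction_on with
    | empty => exact ⟨fun _ => 0, by simp⟩
    | insert a s ha ih =>
      obtain ⟨G, hG⟩ := ih
      obtain ⟨B, hB1, hB2⟩ := hD a
      obtain ⟨k, _, hk⟩ : ∃ k ∈ (univ : Finset (Fin (D + 1))), k ∉ B.image G := by
        apply exists_mem_notMem_of_card_lt_card
        rw [card_univ, Fintype.card_fin]
        exact Nat.lt_succ_of_le (card_image_le.trans hB2)
      refine ⟨Function.update G a k, ?_⟩
      intro x hx y hy hxy hrxy
      rw [mem_insert] at hx hy
      by_cases hxa : x = a
      · subst hxa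
        rw [Function.update_self, Function.update_of_ne (Ne.symm hxy)]
        intro h
        exact hk (mem_image.mpr ⟨y, hB1 y hrxy, h.symm⟩)
      · by_cases hya : y = a
        · subst hya
          rw [Function.update_self, Function.update_of_ne hxy]
          intro h
          exact hk (mem_image.mpr ⟨x, hB1 x (hr _ _ hrxy), h⟩)
        · rw [Function.update_of_ne hxa, Function.update_of_ne hya]
          exact hG x (hx.resolve_left hxa) y (hy.resolve_left hya) hxy hrxy
  obtain ⟨G, hG⟩ := key univ
  exact ⟨G, fun x y => hG x (mem_univ _) y (mem_univ _)⟩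

theorem ball_card {d : ℕ} {α : Type} [Fintype α] [DecidableEq α] (x : Fin d → α) (n : ℕ) :
    ∃ B : Finset (Fin d → α), (∀ y, hammingDist x y ≤ n → y ∈ B) ∧
      B.card ≤ (d * Fintype.card α + 1) ^ n := by
  classical
  induction n with
  | zero =>
    refine ⟨{x}, ?_, by simp⟩
    intro y hy
    rw [Nat.le_zero, hammingDist_eq_zero] at hy
    rw [mem_singleton, hy]
  | succ n ih =>
    obtain ⟨B, h1, h2⟩ := ih
    refine ⟨B ∪ (B ×ˢ (univ : Finset (Fin d × α))).image
      (fun p => Function.update p.1 p.2.1 p.2.2), ?_, ?_⟩
    · intro y hy
      rw [mem_union]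
      by_cases hy' : hammingDist x y ≤ n
      · exact Or.inl (h1 y hy')
      · right
        have hpos : x ≠ y := by
          intro h
          apply hy'
          rw [h, hammingDist_self]
          omega
        obtain ⟨j, hj⟩ := Function.ne_iff.mp hpos
        rw [mem_image]
        refine ⟨(Function.update y j (x j), (j, y j)), ?_, ?_⟩
        · rw [mem_product]
          refine ⟨h1 _ ?_, mem_univ _⟩
          have hlt : hammingDist x (Function.update y j (x j)) < hammingDist x y := by
            unfold hammingDist
            apply card_lt_card
            rw [ssubset_iff_of_subset]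
            · refine ⟨j, ?_, ?_⟩
              · simp [hj]
              · simp
            · intro i hi
              simp only [mem_filter, mem_univ, true_and] at hi ⊢
              by_cases hij : i = j
              · subst hij; exact hj
              · rwa [Function.update_of_ne hij] at hi
          show hammingDist x (Function.update y j (x j)) ≤ n
          omega
        · simp
    · refine (card_union_le _ _).trans ?_
      have h3 := card_image_le (s := B ×ˢ (univ : Finset (Fin d × α)))
        (f := fun p => Function.update p.1 p.2.1 p.2.2)
      rw [card_product, card_univ, Fintype.card_prod, Fintype.card_fin] at h3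
      calc B.card + _ ≤ B.card + B.card * (d * Fintype.card α) := by gcongr
        _ = B.card * (d * Fintype.card α + 1) := by ring
        _ ≤ (d * Fintype.card α + 1) ^ n * (d * Fintype.card α + 1) := by gcongr
        _ = _ := by rw [pow_succ]

/-- a code separating distinct vectors at Hamming distance at most `n` -/
theorem exists_code (d : ℕ) (α : Type) [Fintype α] [DecidableEq α] (n : ℕ) :
    ∃ G : (Fin d → α) → Fin ((d * Fintype.card α + 1) ^ n + 1),
      ∀ x y, hammingDist x y ≤ n → G x = G y → x = y := by
  obtain ⟨G, hG⟩ := greedy_colour (V := Fin d → α) (fun x y => hammingDist x y ≤ n)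
    (fun x y h => by rwa [hammingDist_comm]) ((d * Fintype.card α + 1) ^ n)
    (fun x => ball_card x n)
  refine ⟨G, fun x y h1 h2 => ?_⟩
  by_contra h3
  exact hG x y h3 h1 h2

end Pool.Agent.H208E
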