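import Pool.Agent.H208E.Prob

/-!
The choice of the parameters.
-/

set_option autoImplicit false

namespace Pool.Agent.H208E

open Finset

theorem pow7 {r : ℕ} (hr : 127 ≤ r) : (r + 1) ^ 7 ≤ 2 * r ^ 7 := by
  have h0 : 1 ≤ r ^ 6 := Nat.one_le_pow _ _ (by omega)
  have h1 : r ≤ r ^ 6 := Nat.le_self_pow (by norm_num) r
  have h2 : r ^ 2 ≤ r ^ 6 := Nat.pow_le_pow_right (by omega) (by norm_num)
  have h3 : r ^ 3 ≤ r ^ 6 := Nat.pow_le_pow_right (by omega) (by norm_num)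
  have h4 : r ^ 4 ≤ r ^ 6 := Nat.pow_le_pow_right (by omega) (by norm_num)
  have h5 : r ^ 5 ≤ r ^ 6 := Nat.pow_le_pow_right (by omega) (by norm_num)
  have h6 : 127 * r ^ 6 ≤ r ^ 7 := by
    calc 127 * r ^ 6 ≤ r * r ^ 6 := Nat.mul_le_mul_right _ hr
      _ = r ^ 7 := by ring
  have h7 : (r + 1) ^ 7 = r ^ 7 + 7 * r ^ 6 + 21 * r ^ 5 + 35 * r ^ 4 + 35 * r ^ 3 + 21 * r ^ 2
      + 7 * r + 1 := by ring
  omega

theorem two_pow_le_exp (n : ℕ) : (2 : ℝ) ^ n ≤ Real.exp n := by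
  have h : (2 : ℝ) ≤ Real.exp 1 := by
    have := Real.add_one_le_exp (1 : ℝ)
    linarith
  calc (2 : ℝ) ^ n ≤ (Real.exp 1) ^ n := pow_le_pow_left₀ (by norm_num) h n
    _ = Real.exp n := by rw [← Real.exp_nat_mul, mul_one]

theorem exp_neg_le {x : ℝ} {n : ℕ} (h : (n : ℝ) ≤ x) : Real.exp (-x) ≤ 1 / 2 ^ n := by
  rw [Real.exp_neg, ← one_div]
  apply one_div_le_one_div_of_le (by positivity)
  exact (two_pow_le_exp n).trans (Real.exp_le_exp.mpr h)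

theorem pow_add_one_le {x n : ℕ} (hn : 0 < n) : x ^ n + 1 ≤ (x + 1) ^ n :=
  Nat.pow_lt_pow_left (Nat.lt_succ_self x) hn.ne'

theorem main_nat {N L r e : ℕ} (he : 20 ≤ e) (hr1 : 2 ^ e ≤ r) (hr2 : r < 2 ^ (e + 1))
    (hL1 : r ^ 7 ≤ L) (hL2 : L < (r + 1) ^ 7) (hN1 : 2 ^ L ≤ N) (hN2 : N < 2 ^ (L + 1)) :
    ∃ (κ : Type) (_ : Fintype κ) (c : ℕ → κ) (T : Finset ℕ),
      Fintype.card κ ≤ 2 ^ (139 * (e + 1) ^ 2 * r ^ 6) ∧ (T.card : ℝ) < (N : ℝ) / 10 ∧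
      ∀ x ≤ N, ∀ y ≤ N, x ≠ y → c x = c y → x + y ∈ T := by
  classical
  have hr20 : 2 ^ 20 ≤ r := le_trans (Nat.pow_le_pow_right (by norm_num) he) hr1
  have her : e < r := lt_of_lt_of_le e.lt_two_pow_self hr1
  have hrpos : 0 < r := by omega
  set d := r ^ 6 with hd
  have hdpos : 0 < d := by positivity
  obtain ⟨w, hw⟩ : ∃ w, w = L / d := ⟨_, rfl⟩
  have hwd : w * d ≤ L := by rw [hw]; exact Nat.div_mul_le_self _ _
  have hwd' : L < (w + 1) * d := by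
    rw [hw]
    exact Nat.lt_mul_of_div_lt (Nat.lt_succ_self _) hdpos
  have hrw : r ≤ w := by
    rw [hw, Nat.le_div_iff_mul_le hdpos, hd]
    calc r * r ^ 6 = r ^ 7 := by ring
      _ ≤ L := hL1
  have hw2 : w < 2 * r := by
    rw [hw, Nat.div_lt_iff_lt_mul hdpos, hd]
    calc L < (r + 1) ^ 7 := hL2
      _ ≤ 2 * r ^ 7 := pow7 (by omega)
      _ = 2 * r * r ^ 6 := by ring
  obtain ⟨a, ha⟩ : ∃ a, w = e + a := ⟨w - e, by omega⟩
  have ha2 : a < 2 * r := by omega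
  obtain ⟨Q, hQ⟩ : ∃ Q, Q = 2 ^ (e + a) := ⟨_, rfl⟩
  have hQpos : 0 < Q := by rw [hQ]; positivity
  have hNZ : NeZero (Q ^ d) := ⟨by positivity⟩
  have hn : Q ^ d = 2 ^ (w * d) := by rw [hQ, ← ha, ← pow_mul]
  have hnN : Q ^ d ≤ N := by
    rw [hn]
    exact (Nat.pow_le_pow_right (by norm_num) hwd).trans hN1
  have hNn : N / Q ^ d + 1 ≤ 2 ^ d := by
    have : N / Q ^ d < 2 ^ d := by
      rw [Nat.div_lt_iff_lt_mul (by positivity), hn, ← pow_add]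
      refine lt_of_lt_of_le hN2 (Nat.pow_le_pow_right (by norm_num) ?_)
      have : (w + 1) * d = d + w * d := by ring
      omega
    exact this
  obtain ⟨k, hk⟩ : ∃ k, k = w * d + 1 := ⟨_, rfl⟩
  have hnk : Q ^ d < 2 ^ k := by
    rw [hn, hk]
    exact Nat.pow_lt_pow_right (by norm_num) (Nat.lt_succ_self _)
  obtain ⟨τ, hτ⟩ : ∃ τ : ℝ, τ = e * (r : ℝ) ^ 3 := ⟨_, rfl⟩
  have hτ0 : 0 ≤ τ := by rw [hτ]; positivity
  -- sizes
  have hrr : (0 : ℝ) < r := by exact_mod_cast hrpos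
  have h2e : (2 : ℝ) ^ e ≤ r := by exact_mod_cast hr1
  have hre : (r : ℝ) ≤ 2 * 2 ^ e := by
    have : r ≤ 2 * 2 ^ e := by rw [← pow_succ']; exact hr2.le
    exact_mod_cast this
  have h4e : (4 : ℝ) ^ e ≤ (r : ℝ) ^ 2 := by
    rw [four_pow]; gcongr
  have hdr : (d : ℝ) = (r : ℝ) ^ 6 := by rw [hd]; push_cast; rfl
  obtain ⟨n1, hn1⟩ : ∃ n1, n1 = 8 * r ^ 5 := ⟨_, rfl⟩
  obtain ⟨nH, hnH⟩ : ∃ nH, nH = 8 * (e + 1) * r ^ 5 := ⟨_, rfl⟩
  obtain ⟨n0, hn0⟩ : ∃ n0, n0 = 2 * e * r ^ 5 := ⟨_, rfl⟩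
  have c1 : 4 * (d : ℝ) / 2 ^ e ≤ n1 := by
    rw [div_le_iff₀ (by positivity), hdr, hn1]
    push_cast
    have : 4 * (r : ℝ) ^ 6 = 4 * r ^ 5 * r := by ring
    rw [this]
    calc 4 * (r : ℝ) ^ 5 * r ≤ 4 * (r : ℝ) ^ 5 * (2 * 2 ^ e) := by gcongr
      _ = _ := by ring
  have c2 : (n1 : ℝ) + 8 * τ * 4 ^ e ≤ nH := by
    rw [hn1, hnH, hτ]
    push_cast
    calc 8 * (r : ℝ) ^ 5 + 8 * (e * (r : ℝ) ^ 3) * 4 ^ e
        ≤ 8 * (r : ℝ) ^ 5 + 8 * (e * (r : ℝ) ^ 3) * (r : ℝ) ^ 2 := by gcongr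
      _ = _ := by ring
  have c3 : 2 * τ * 4 ^ e ≤ n0 := by
    rw [hn0, hτ]
    push_cast
    calc 2 * (e * (r : ℝ) ^ 3) * 4 ^ e ≤ 2 * (e * (r : ℝ) ^ 3) * (r : ℝ) ^ 2 := by gcongr
      _ = _ := by ring
  -- the exponentials
  have E1 : Real.exp (-(τ ^ 2 / (2 * d))) ≤ 1 / 2 ^ (10 * e) := by
    apply exp_neg_le
    rw [hτ, hdr, le_div_iff₀ (by positivity)]
    push_cast
    have he' : (20 : ℝ) ≤ e := by exact_mod_cast he
    have : (e * (r : ℝ) ^ 3) ^ 2 = e * e * (r : ℝ) ^ 6 := by ring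
    rw [this]
    calc 10 * (e : ℝ) * (2 * (r : ℝ) ^ 6) = 20 * e * (r : ℝ) ^ 6 := by ring
      _ ≤ e * e * (r : ℝ) ^ 6 := by gcongr
  have E2 : Real.exp (-(2 * d / 4 ^ e)) ≤ 1 / 2 ^ (10 * e) := by
    apply exp_neg_le
    rw [hdr, le_div_iff₀ (by positivity)]
    push_cast
    have he' : (e : ℝ) ≤ r := by exact_mod_cast her.le
    have h20 : (10 : ℝ) ≤ r := by
      have : 10 ≤ r := by omega
      exact_mod_cast this
    have h1r : (1 : ℝ) ≤ r := by linarith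
    calc 10 * (e : ℝ) * 4 ^ e ≤ r * r * (r : ℝ) ^ 2 := by gcongr
      _ = (r : ℝ) ^ 4 := by ring
      _ ≤ (r : ℝ) ^ 6 := pow_le_pow_right₀ h1r (by norm_num)
      _ ≤ 2 * (r : ℝ) ^ 6 := by nlinarith [pow_pos hrr 6]
  -- the two exceptional sets
  set XX : Finset (Fin d → Fin Q) :=
    univ.filter (fun x => Xprop d e a (AA d e Q) τ (fun j => (x j : ℕ))) with hXX
  set BB : Finset (Fin d → Fin Q) :=
    univ.filter (fun x => ¬ Gprop d e a e n1 (AA d e Q) τ (fun j => (x j : ℕ))) with hBB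
  have hXc := X_card (d := d) (e := e) (a := a) (Q := Q) hQpos hdpos hτ0
  have hBc := B_card (d := d) (e := e) (f := e) (a := a) (n1 := n1) hQ hdpos le_rfl hτ0 c1
  rw [← hBB] at hBc
  -- k (2a+1) is small
  have hk3 : k ≤ 3 * r ^ 7 := by
    rw [hk]
    have h1 : w * d ≤ 2 * r * d := Nat.mul_le_mul_right _ hw2.le
    have h2 : 2 * r * d = 2 * r ^ 7 := by rw [hd]; ring
    have h3 : 1 ≤ r ^ 7 := Nat.one_le_pow _ _ hrpos
    omega
  have hka : 40 * (k * (2 * a + 1)) < 2 ^ (10 * e) := by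
    have h1 : 2 * a + 1 ≤ 5 * r := by omega
    have h2 : k * (2 * a + 1) ≤ 15 * r ^ 8 := by
      calc k * (2 * a + 1) ≤ 3 * r ^ 7 * (5 * r) := Nat.mul_le_mul hk3 h1
        _ = 15 * r ^ 8 := by ring
    have h3 : r ^ 8 ≤ 2 ^ (8 * (e + 1)) := by
      calc r ^ 8 ≤ (2 ^ (e + 1)) ^ 8 := Nat.pow_le_pow_left hr2.le 8
        _ = 2 ^ (8 * (e + 1)) := by rw [← pow_mul]; congr 1; ring
    calc 40 * (k * (2 * a + 1)) ≤ 40 * (15 * 2 ^ (8 * (e + 1))) := by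
          apply Nat.mul_le_mul_left
          exact h2.trans (Nat.mul_le_mul_left _ h3)
      _ = 600 * 2 ^ (8 * (e + 1)) := by ring
      _ < 2 ^ 10 * 2 ^ (8 * (e + 1)) := by
          apply Nat.mul_lt_mul_of_pos_right (by norm_num) (by positivity)
      _ = 2 ^ (8 * e + 18) := by rw [← pow_add]; congr 1; ring
      _ ≤ 2 ^ (10 * e) := Nat.pow_le_pow_right (by norm_num) (by omega)
  have hkar : 40 * ((k : ℝ) * (2 * a + 1)) < 2 ^ (10 * e) := by exact_mod_cast hka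
  have hk1 : 1 ≤ k := by omega
  have hk1r : (1 : ℝ) ≤ k := by exact_mod_cast hk1
  have hnr : (0 : ℝ) < (Q : ℝ) ^ d := by
    have : (0 : ℝ) < Q := by exact_mod_cast hQpos
    positivity
  have hP : (0 : ℝ) < 2 ^ (10 * e) := by positivity
  -- X is at least half
  have hXhalf : Q ^ d ≤ 2 * XX.card := by
    have h1 : XX.card + ((univ : Finset (Fin d → Fin Q)).filter
        (fun x => ¬ Xprop d e a (AA d e Q) τ (fun j => (x j : ℕ)))).card = Q ^ d := by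
      rw [hXX, card_filter_add_card_filter_not, card_univ, Fintype.card_fun, Fintype.card_fin,
        Fintype.card_fin]
    have h2 : (((univ : Finset (Fin d → Fin Q)).filter
        (fun x => ¬ Xprop d e a (AA d e Q) τ (fun j => (x j : ℕ)))).card : ℝ) ≤
        (Q : ℝ) ^ d / 2 := by
      refine hXc.trans ?_
      have h3 : ((a : ℝ) + 1) * Real.exp (-(τ ^ 2 / (2 * d))) ≤ 1 / 2 := by
        calc ((a : ℝ) + 1) * Real.exp (-(τ ^ 2 / (2 * d)))
            ≤ ((a : ℝ) + 1) * (1 / 2 ^ (10 * e)) := by gcongr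
          _ = ((a : ℝ) + 1) / 2 ^ (10 * e) := by ring
          _ ≤ 1 / 2 := by
              rw [div_le_div_iff₀ hP (by norm_num)]
              have ha0 : (0 : ℝ) ≤ a := Nat.cast_nonneg _
              nlinarith
      calc (Q : ℝ) ^ d * (((a : ℝ) + 1) * Real.exp (-(τ ^ 2 / (2 * d))))
          ≤ (Q : ℝ) ^ d * (1 / 2) := by gcongr
        _ = _ := by ring
    have h3 : (XX.card : ℝ) + (((univ : Finset (Fin d → Fin Q)).filter
        (fun x => ¬ Xprop d e a (AA d e Q) τ (fun j => (x j : ℕ)))).card : ℝ) = (Q : ℝ) ^ d := by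
      exact_mod_cast h1
    have h4 : (Q : ℝ) ^ d ≤ 2 * XX.card := by linarith
    exact_mod_cast h4
  obtain ⟨c0, U, hU, hc0⟩ := colour_zmod (d := d) (e := e) (f := e) (a := a) (n1 := n1)
    (nH := nH) (n0 := n0) (k := k) (Q := Q) (A := AA d e Q) (τ := τ) le_rfl hQ c2 c3 XX BB
    (fun x hx => by rw [hXX, mem_filter] at hx; exact hx.2)
    (fun m hm => by
      rw [hBB, mem_filter] at hm
      by_contra hcon
      exact hm ⟨mem_univ _, hcon⟩) hXhalf hnk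
  obtain ⟨c, T, hT, hc⟩ := colour_nat c0 U hc0 N
  refine ⟨_, inferInstance, c, T, ?_, ?_, hc⟩
  · -- number of colours
    simp only [Fintype.card_prod, Fintype.card_fin, Fintype.card_fun]
    have e5 : 1 ≤ r ^ 5 := Nat.one_le_pow _ _ hrpos
    have b1 : N / Q ^ d + 1 ≤ 2 ^ ((e + 1) ^ 2 * r ^ 6) := by
      refine hNn.trans (Nat.pow_le_pow_right (by norm_num) ?_)
      rw [hd]
      exact Nat.le_mul_of_pos_left _ (by positivity)
    have b2 : k ≤ 2 ^ (9 * (e + 1) ^ 2 * r ^ 6) := by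
      calc k ≤ 3 * r ^ 7 := hk3
        _ ≤ 2 ^ 2 * (2 ^ (e + 1)) ^ 7 := by
            apply Nat.mul_le_mul (by norm_num)
            exact Nat.pow_le_pow_left hr2.le 7
        _ = 2 ^ (7 * (e + 1) + 2) := by rw [← pow_mul, ← pow_add]; congr 1; ring
        _ ≤ 2 ^ (9 * (e + 1) ^ 2 * r ^ 6) := by
            apply Nat.pow_le_pow_right (by norm_num)
            have h1 : 1 ≤ r ^ 6 := Nat.one_le_pow _ _ hrpos
            have h2 : 9 * (e + 1) ^ 2 ≤ 9 * (e + 1) ^ 2 * r ^ 6 := Nat.le_mul_of_pos_right _ h1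
            have h3 : 7 * (e + 1) + 2 ≤ 9 * (e + 1) ^ 2 := by nlinarith
            omega
    have b3 : 2 ^ d ≤ 2 ^ ((e + 1) ^ 2 * r ^ 6) := by
      apply Nat.pow_le_pow_right (by norm_num)
      rw [hd]
      exact Nat.le_mul_of_pos_left _ (by positivity)
    have b4 : ((d * 2 + 1) ^ nH + 1) ^ a ≤ 2 ^ (112 * (e + 1) ^ 2 * r ^ 6) := by
      have h1 : (d * 2 + 1) ^ nH + 1 ≤ (d * 2 + 2) ^ nH := pow_add_one_le (by
        rw [hnH]; positivity)
      have h2 : d * 2 + 2 ≤ r ^ 7 := by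
        have h3 : 4 * r ^ 6 ≤ r * r ^ 6 := Nat.mul_le_mul_right _ (by omega)
        have h4 : r ^ 7 = r * r ^ 6 := by ring
        have h5 : 1 ≤ r ^ 6 := Nat.one_le_pow _ _ hrpos
        rw [hd]; omega
      have h3 : d * 2 + 2 ≤ 2 ^ (7 * (e + 1)) := by
        calc d * 2 + 2 ≤ r ^ 7 := h2
          _ ≤ (2 ^ (e + 1)) ^ 7 := Nat.pow_le_pow_left hr2.le 7
          _ = 2 ^ (7 * (e + 1)) := by rw [← pow_mul]; congr 1; ring
      calc ((d * 2 + 1) ^ nH + 1) ^ a ≤ ((2 ^ (7 * (e + 1))) ^ nH) ^ a := by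
            apply Nat.pow_le_pow_left
            exact h1.trans (Nat.pow_le_pow_left h3 _)
        _ = 2 ^ (7 * (e + 1) * nH * a) := by
            rw [← pow_mul, ← pow_mul]; congr 1; ring
        _ ≤ 2 ^ (112 * (e + 1) ^ 2 * r ^ 6) := by
            apply Nat.pow_le_pow_right (by norm_num)
            calc 7 * (e + 1) * nH * a ≤ 7 * (e + 1) * nH * (2 * r) :=
                  Nat.mul_le_mul_left _ ha2.le
              _ = 112 * (e + 1) ^ 2 * r ^ 6 := by rw [hnH]; ring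
    have b5 : (d * 2 ^ e + 1) ^ n0 + 1 ≤ 2 ^ (16 * (e + 1) ^ 2 * r ^ 6) := by
      have h1 : (d * 2 ^ e + 1) ^ n0 + 1 ≤ (d * 2 ^ e + 2) ^ n0 := pow_add_one_le (by
        rw [hn0]; positivity)
      have h2 : d * 2 ^ e + 2 ≤ r ^ 8 := by
        have h3 : d * 2 ^ e ≤ r ^ 7 := by
          calc d * 2 ^ e ≤ r ^ 6 * r := by rw [hd]; exact Nat.mul_le_mul_left _ hr1
            _ = r ^ 7 := by ring
        have h4 : 3 * r ^ 7 ≤ r * r ^ 7 := Nat.mul_le_mul_right _ (by omega)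
        have h5 : r ^ 8 = r * r ^ 7 := by ring
        have h6 : 1 ≤ r ^ 7 := Nat.one_le_pow _ _ hrpos
        omega
      have h3 : d * 2 ^ e + 2 ≤ 2 ^ (8 * (e + 1)) := by
        calc d * 2 ^ e + 2 ≤ r ^ 8 := h2
          _ ≤ (2 ^ (e + 1)) ^ 8 := Nat.pow_le_pow_left hr2.le 8
          _ = 2 ^ (8 * (e + 1)) := by rw [← pow_mul]; congr 1; ring
      calc (d * 2 ^ e + 1) ^ n0 + 1 ≤ (2 ^ (8 * (e + 1))) ^ n0 :=
            h1.trans (Nat.pow_le_pow_left h3 _)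
        _ = 2 ^ (8 * (e + 1) * n0) := by rw [← pow_mul]
        _ ≤ 2 ^ (16 * (e + 1) ^ 2 * r ^ 6) := by
            apply Nat.pow_le_pow_right (by norm_num)
            calc 8 * (e + 1) * n0 = 16 * (e + 1) * e * r ^ 5 := by rw [hn0]; ring
              _ ≤ 16 * (e + 1) * (e + 1) * r ^ 6 := by
                  apply Nat.mul_le_mul
                  · exact Nat.mul_le_mul_left _ (Nat.le_succ e)
                  · exact Nat.pow_le_pow_right hrpos (by norm_num)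
              _ = _ := by ring
    calc (N / Q ^ d + 1) * (k * (2 ^ d * (((d * 2 + 1) ^ nH + 1) ^ a *
          ((d * 2 ^ e + 1) ^ n0 + 1))))
        ≤ 2 ^ ((e + 1) ^ 2 * r ^ 6) * (2 ^ (9 * (e + 1) ^ 2 * r ^ 6) *
          (2 ^ ((e + 1) ^ 2 * r ^ 6) * (2 ^ (112 * (e + 1) ^ 2 * r ^ 6) *
            2 ^ (16 * (e + 1) ^ 2 * r ^ 6)))) :=
          Nat.mul_le_mul b1 (Nat.mul_le_mul b2 (Nat.mul_le_mul b3 (Nat.mul_le_mul b4 b5)))
      _ = 2 ^ (139 * (e + 1) ^ 2 * r ^ 6) := by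
          rw [← pow_add, ← pow_add, ← pow_add, ← pow_add]
          congr 1
          ring
  · -- few sums
    have hNr : (0 : ℝ) < N := by
      have : 0 < N := lt_of_lt_of_le (by positivity) hN1
      exact_mod_cast this
    have h1 : (T.card : ℝ) ≤ ((N / Q ^ d : ℕ) + 1) * (2 * (k * BB.card)) := by
      have h2 : T.card ≤ (N / Q ^ d + 1) * (2 * (k * BB.card)) :=
        hT.trans (Nat.mul_le_mul_left _ (Nat.mul_le_mul_left _ hU))
      exact_mod_cast h2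
    have h2 : (((N / Q ^ d : ℕ) : ℝ) + 1) * (Q : ℝ) ^ d ≤ 2 * N := by
      have h3 : (N / Q ^ d + 1) * Q ^ d ≤ 2 * N := by
        have := Nat.div_mul_le_self N (Q ^ d)
        calc (N / Q ^ d + 1) * Q ^ d = N / Q ^ d * Q ^ d + Q ^ d := by ring
          _ ≤ N + N := by omega
          _ = 2 * N := by ring
      exact_mod_cast h3
    have h3 : (BB.card : ℝ) ≤ (Q : ℝ) ^ d * ((2 * a + 1) / 2 ^ (10 * e)) := by
      refine hBc.trans ?_
      apply mul_le_mul_of_nonneg_left _ hnr.le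
      calc ((a : ℝ) + 1) * Real.exp (-(τ ^ 2 / (2 * d))) + a * Real.exp (-(2 * d / 4 ^ e))
          ≤ ((a : ℝ) + 1) * (1 / 2 ^ (10 * e)) + a * (1 / 2 ^ (10 * e)) := by gcongr
        _ = _ := by ring
    have h0 : (0 : ℝ) ≤ ((N / Q ^ d : ℕ) : ℝ) + 1 := by positivity
    calc (T.card : ℝ) ≤ (((N / Q ^ d : ℕ) : ℝ) + 1) * (2 * (k * BB.card)) := h1
      _ ≤ (((N / Q ^ d : ℕ) : ℝ) + 1) *
          (2 * (k * ((Q : ℝ) ^ d * ((2 * a + 1) / 2 ^ (10 * e))))) := by gcongr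
      _ = ((((N / Q ^ d : ℕ) : ℝ) + 1) * (Q : ℝ) ^ d) *
          (2 * (k * ((2 * a + 1) / 2 ^ (10 * e)))) := by ring
      _ ≤ (2 * N) * (2 * (k * ((2 * a + 1) / 2 ^ (10 * e)))) := by
          apply mul_le_mul_of_nonneg_right h2 (by positivity)
      _ = N / 10 * ((40 * (k * (2 * a + 1))) / 2 ^ (10 * e)) := by ring
      _ < N / 10 * 1 := by
          apply mul_lt_mul_of_pos_left _ (by positivity)
          rw [div_lt_one hP]
          exact hkar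
      _ = N / 10 := by ring

end Pool.Agent.H208E
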