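import Pool.Agent.H208E.Conc
import Pool.Agent.H208E.Col

/-!
The exceptional sets are small.
-/

set_option autoImplicit false

namespace Pool.Agent.H208E

open Finset

/-- the mean square residue -/
noncomputable def AA (d e Q : ℕ) (i : ℕ) : ℝ :=
  d * ((∑ y : Fin Q, ((((y : ℕ) % 2 ^ (e + i) : ℕ) : ℝ)) ^ 2) / Q)

theorem hh_cast {d M Q : ℕ} (x : Fin d → Fin Q) :
    ((hh M (fun j => (x j : ℕ)) : ℕ) : ℝ) = ∑ j, ((((x j : ℕ) % M : ℕ) : ℝ)) ^ 2 := by
  unfold hh
  push_cast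
  rfl

theorem sq_mod_le {M y : ℕ} (hM : 0 < M) : (((y % M : ℕ) : ℝ)) ^ 2 ≤ (M : ℝ) ^ 2 := by
  have h : y % M ≤ M := (Nat.mod_lt _ hM).le
  have h' : ((y % M : ℕ) : ℝ) ≤ M := by exact_mod_cast h
  gcongr

theorem upper_i {d e Q i : ℕ} (hQ : 0 < Q) (hd : 0 < d) {τ : ℝ} (hτ : 0 ≤ τ) :
    (((univ : Finset (Fin d → Fin Q)).filter
      (fun x => AA d e Q i + τ * ((2 : ℝ) ^ (e + i)) ^ 2 ≤
        (hh (2 ^ (e + i)) (fun j => (x j : ℕ)) : ℝ))).card : ℝ) ≤
      (Q : ℝ) ^ d * Real.exp (-(τ ^ 2 / (2 * d))) := by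
  have hM : 0 < 2 ^ (e + i) := by positivity
  have h := count_upper (d := d) hQ
    (fun y : Fin Q => ((((y : ℕ) % 2 ^ (e + i) : ℕ) : ℝ)) ^ 2)
    (B := ((2 : ℝ) ^ (e + i)) ^ 2) (by positivity) (fun y => by positivity)
    (fun y => by
      have := sq_mod_le (y := (y : ℕ)) hM
      push_cast at this
      exact_mod_cast this) hd (T := τ * ((2 : ℝ) ^ (e + i)) ^ 2) (by positivity)
  have e1 : (τ * ((2 : ℝ) ^ (e + i)) ^ 2) ^ 2 / (2 * d * (((2 : ℝ) ^ (e + i)) ^ 2) ^ 2) =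
      τ ^ 2 / (2 * d) := by
    have hd' : (d : ℝ) ≠ 0 := by exact_mod_cast hd.ne'
    have : ((2 : ℝ) ^ (e + i)) ≠ 0 := by positivity
    field_simp
  rw [e1] at h
  refine le_trans (le_of_eq ?_) h
  congr 2
  ext x
  simp only [mem_filter, mem_univ, true_and]
  rw [hh_cast]
  rfl

theorem lower_i {d e Q i : ℕ} (hQ : 0 < Q) (hd : 0 < d) {τ : ℝ} (hτ : 0 ≤ τ) :
    (((univ : Finset (Fin d → Fin Q)).filter
      (fun x => (hh (2 ^ (e + i)) (fun j => (x j : ℕ)) : ℝ) ≤
        AA d e Q i - τ * ((2 : ℝ) ^ (e + i)) ^ 2)).card : ℝ) ≤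
      (Q : ℝ) ^ d * Real.exp (-(τ ^ 2 / (2 * d))) := by
  have hM : 0 < 2 ^ (e + i) := by positivity
  have h := count_lower (d := d) hQ
    (fun y : Fin Q => ((((y : ℕ) % 2 ^ (e + i) : ℕ) : ℝ)) ^ 2)
    (B := ((2 : ℝ) ^ (e + i)) ^ 2) (by positivity) (fun y => by positivity)
    (fun y => by
      have := sq_mod_le (y := (y : ℕ)) hM
      push_cast at this
      exact_mod_cast this) hd (T := τ * ((2 : ℝ) ^ (e + i)) ^ 2) (by positivity)
  have e1 : (τ * ((2 : ℝ) ^ (e + i)) ^ 2) ^ 2 / (2 * d * (((2 : ℝ) ^ (e + i)) ^ 2) ^ 2) =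
      τ ^ 2 / (2 * d) := by
    have hd' : (d : ℝ) ≠ 0 := by exact_mod_cast hd.ne'
    have : ((2 : ℝ) ^ (e + i)) ≠ 0 := by positivity
    field_simp
  rw [e1] at h
  refine le_trans (le_of_eq ?_) h
  congr 2
  ext x
  simp only [mem_filter, mem_univ, true_and]
  rw [hh_cast]
  rfl

theorem near_card {M s q Q : ℕ} (hM : 0 < M) (hQ : Q = M * q) :
    ((univ : Finset (Fin Q)).filter (fun y : Fin Q => near M s (y : ℕ))).card ≤ 2 * s * q := by
  classical
  have h1 : ((univ : Finset (Fin Q)).filter (fun y : Fin Q => near M s (y : ℕ))).card ≤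
      ((range s ∪ Ico (M - s) M) ×ˢ range q).card := by
    apply card_le_card_of_injOn (fun y : Fin Q => ((y : ℕ) % M, (y : ℕ) / M))
    · intro y hy
      rw [mem_coe, mem_filter] at hy
      rw [mem_coe, mem_product, mem_union, mem_range, mem_Ico, mem_range]
      have h2 := Nat.mod_lt (y : ℕ) hM
      have h3 : (y : ℕ) / M < q := by
        rw [Nat.div_lt_iff_lt_mul hM, mul_comm, ← hQ]
        exact y.isLt
      refine ⟨?_, h3⟩
      rcases hy.2 with h | h
      · left; exact h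
      · right
        simp only
        omega
    · intro y _ y' _ h
      simp only [Prod.mk.injEq] at h
      apply Fin.ext
      rw [← Nat.div_add_mod (y : ℕ) M, ← Nat.div_add_mod (y' : ℕ) M, h.1, h.2]
  refine h1.trans ?_
  rw [card_product, card_range]
  apply Nat.mul_le_mul_right
  refine (card_union_le _ _).trans ?_
  rw [card_range, Nat.card_Ico]
  omega

theorem near_i {d e f Q a i n1 : ℕ} (hd : 0 < d) (hf : f ≤ e) (hi : i ≤ a)
    (hQ : Q = 2 ^ (e + a)) (hn1 : 4 * (d : ℝ) / 2 ^ f ≤ n1) :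
    (((univ : Finset (Fin d → Fin Q)).filter
      (fun x => n1 < ((univ : Finset (Fin d)).filter
        (fun j => near (2 ^ (e + i)) (2 ^ (e + i - f)) ((x j : ℕ)))).card)).card : ℝ) ≤
      (Q : ℝ) ^ d * Real.exp (-(2 * d / 4 ^ f)) := by
  have hQ0 : 0 < Q := by rw [hQ]; positivity
  have hQr : (0 : ℝ) < Q := by exact_mod_cast hQ0
  have hdr : (0 : ℝ) < d := by exact_mod_cast hd
  have h := count_upper (d := d) hQ0
    (fun y : Fin Q => if near (2 ^ (e + i)) (2 ^ (e + i - f)) (y : ℕ) then (1 : ℝ) else 0)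
    (B := 1) (by norm_num) (fun y => by split_ifs <;> norm_num)
    (fun y => by split_ifs <;> norm_num) hd (T := 2 * d / 2 ^ f) (by positivity)
  have hmean : (∑ y : Fin Q, if near (2 ^ (e + i)) (2 ^ (e + i - f)) (y : ℕ)
      then (1 : ℝ) else 0) / Q ≤ 2 / 2 ^ f := by
    rw [div_le_div_iff₀ hQr (by positivity), sum_boole]
    have h1 := near_card (M := 2 ^ (e + i)) (s := 2 ^ (e + i - f)) (q := 2 ^ (a - i)) (Q := Q)
      (by positivity) (by rw [hQ, ← pow_add]; congr 1; omega)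
    have h2 : (((univ : Finset (Fin Q)).filter
        (fun y : Fin Q => near (2 ^ (e + i)) (2 ^ (e + i - f)) (y : ℕ))).card : ℝ) ≤
        2 * 2 ^ (e + i - f) * 2 ^ (a - i) := by exact_mod_cast h1
    calc (((univ : Finset (Fin Q)).filter
        (fun y : Fin Q => near (2 ^ (e + i)) (2 ^ (e + i - f)) (y : ℕ))).card : ℝ) * 2 ^ f
        ≤ (2 * 2 ^ (e + i - f) * 2 ^ (a - i)) * 2 ^ f := by gcongr
      _ = 2 * Q := by
          rw [hQ]
          push_cast
          have : e + a = (e + i - f) + (a - i) + f := by omega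
          rw [this, pow_add, pow_add]
          ring
  have e1 : (2 * (d : ℝ) / 2 ^ f) ^ 2 / (2 * d * 1 ^ 2) = 2 * d / 4 ^ f := by
    rw [four_pow]
    have : ((2 : ℝ) ^ f) ≠ 0 := by positivity
    field_simp
  rw [e1] at h
  refine le_trans ?_ h
  have hsub : ((univ : Finset (Fin d → Fin Q)).filter
      (fun x => n1 < ((univ : Finset (Fin d)).filter
        (fun j => near (2 ^ (e + i)) (2 ^ (e + i - f)) ((x j : ℕ)))).card)) ⊆
      ((univ : Finset (Fin d → Fin Q)).filter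
      (fun x => d * ((∑ y : Fin Q, if near (2 ^ (e + i)) (2 ^ (e + i - f)) (y : ℕ)
        then (1 : ℝ) else 0) / Q) + 2 * d / 2 ^ f ≤
        ∑ j, if near (2 ^ (e + i)) (2 ^ (e + i - f)) ((x j : ℕ)) then (1 : ℝ) else 0)) := by
    intro x hx
    rw [mem_filter] at hx ⊢
    refine ⟨mem_univ _, ?_⟩
    rw [sum_boole (p := fun j => near (2 ^ (e + i)) (2 ^ (e + i - f)) ((x j : ℕ)))]
    have h1 : (n1 : ℝ) ≤ (((univ : Finset (Fin d)).filter
        (fun j => near (2 ^ (e + i)) (2 ^ (e + i - f)) ((x j : ℕ)))).card : ℝ) := by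
      exact_mod_cast hx.2.le
    refine le_trans ?_ h1
    refine le_trans ?_ hn1
    have h2 : d * ((∑ y : Fin Q, if near (2 ^ (e + i)) (2 ^ (e + i - f)) (y : ℕ)
        then (1 : ℝ) else 0) / Q) ≤ d * (2 / 2 ^ f) := by gcongr
    refine le_trans (add_le_add_left h2 _) (le_of_eq ?_)
    ring
  exact_mod_cast card_le_card hsub

open Classical in
theorem X_card {d e a Q : ℕ} (hQ : 0 < Q) (hd : 0 < d) {τ : ℝ} (hτ : 0 ≤ τ) :
    (((univ : Finset (Fin d → Fin Q)).filter
      (fun x => ¬ Xprop d e a (AA d e Q) τ (fun j => (x j : ℕ)))).card : ℝ) ≤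
      (Q : ℝ) ^ d * ((a + 1) * Real.exp (-(τ ^ 2 / (2 * d)))) := by
  have hsub : ((univ : Finset (Fin d → Fin Q)).filter
      (fun x => ¬ Xprop d e a (AA d e Q) τ (fun j => (x j : ℕ)))) ⊆
      (range (a + 1)).biUnion (fun i => (univ : Finset (Fin d → Fin Q)).filter
      (fun x => AA d e Q i + τ * ((2 : ℝ) ^ (e + i)) ^ 2 ≤
        (hh (2 ^ (e + i)) (fun j => (x j : ℕ)) : ℝ))) := by
    intro x hx
    rw [mem_filter] at hx
    have h := hx.2
    unfold Xprop at h
    push Not at h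
    obtain ⟨i, hi, h⟩ := h
    rw [mem_biUnion]
    exact ⟨i, by rw [mem_range]; omega, by rw [mem_filter]; exact ⟨mem_univ _, h.le⟩⟩
  have h1 : (((univ : Finset (Fin d → Fin Q)).filter
      (fun x => ¬ Xprop d e a (AA d e Q) τ (fun j => (x j : ℕ)))).card : ℝ) ≤
      ∑ i ∈ range (a + 1), (((univ : Finset (Fin d → Fin Q)).filter
      (fun x => AA d e Q i + τ * ((2 : ℝ) ^ (e + i)) ^ 2 ≤
        (hh (2 ^ (e + i)) (fun j => (x j : ℕ)) : ℝ))).card : ℝ) := by
    exact_mod_cast (card_le_card hsub).trans card_biUnion_le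
  refine h1.trans ?_
  refine (sum_le_sum fun i _ => upper_i (e := e) (i := i) hQ hd hτ).trans (le_of_eq ?_)
  rw [sum_const, card_range]
  simp only [nsmul_eq_mul]
  push_cast
  ring

open Classical in
theorem B_card {d e f a n1 Q : ℕ} (hQ : Q = 2 ^ (e + a)) (hd : 0 < d) (hf : f ≤ e) {τ : ℝ}
    (hτ : 0 ≤ τ) (hn1 : 4 * (d : ℝ) / 2 ^ f ≤ n1) :
    (((univ : Finset (Fin d → Fin Q)).filter
      (fun x => ¬ Gprop d e a f n1 (AA d e Q) τ (fun j => (x j : ℕ)))).card : ℝ) ≤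
      (Q : ℝ) ^ d * ((a + 1) * Real.exp (-(τ ^ 2 / (2 * d))) +
        a * Real.exp (-(2 * d / 4 ^ f))) := by
  have hQ0 : 0 < Q := by rw [hQ]; positivity
  have hsub : ((univ : Finset (Fin d → Fin Q)).filter
      (fun x => ¬ Gprop d e a f n1 (AA d e Q) τ (fun j => (x j : ℕ)))) ⊆
      (range (a + 1)).biUnion (fun i => (univ : Finset (Fin d → Fin Q)).filter
      (fun x => (hh (2 ^ (e + i)) (fun j => (x j : ℕ)) : ℝ) ≤
        AA d e Q i - τ * ((2 : ℝ) ^ (e + i)) ^ 2)) ∪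
      (range a).biUnion (fun i => (univ : Finset (Fin d → Fin Q)).filter
      (fun x => n1 < ((univ : Finset (Fin d)).filter
        (fun j => near (2 ^ (e + i)) (2 ^ (e + i - f)) ((x j : ℕ)))).card)) := by
    intro x hx
    rw [mem_filter] at hx
    have h := hx.2
    unfold Gprop at h
    rw [not_and_or] at h
    rw [mem_union]
    rcases h with h | h
    · left
      push Not at h
      obtain ⟨i, hi, h⟩ := h
      rw [mem_biUnion]
      exact ⟨i, by rw [mem_range]; omega, by rw [mem_filter]; exact ⟨mem_univ _, h.le⟩⟩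
    · right
      push Not at h
      obtain ⟨i, hi, h⟩ := h
      rw [mem_biUnion]
      exact ⟨i, by rw [mem_range]; omega, by rw [mem_filter]; exact ⟨mem_univ _, h⟩⟩
  have h1 : (((univ : Finset (Fin d → Fin Q)).filter
      (fun x => ¬ Gprop d e a f n1 (AA d e Q) τ (fun j => (x j : ℕ)))).card : ℝ) ≤
      ∑ i ∈ range (a + 1), (((univ : Finset (Fin d → Fin Q)).filter
      (fun x => (hh (2 ^ (e + i)) (fun j => (x j : ℕ)) : ℝ) ≤
        AA d e Q i - τ * ((2 : ℝ) ^ (e + i)) ^ 2)).card : ℝ) +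
      ∑ i ∈ range a, (((univ : Finset (Fin d → Fin Q)).filter
      (fun x => n1 < ((univ : Finset (Fin d)).filter
        (fun j => near (2 ^ (e + i)) (2 ^ (e + i - f)) ((x j : ℕ)))).card)).card : ℝ) := by
    exact_mod_cast (card_le_card hsub).trans ((card_union_le _ _).trans
      (add_le_add card_biUnion_le card_biUnion_le))
  refine h1.trans ?_
  have h2 := sum_le_sum fun i (_ : i ∈ range (a + 1)) => lower_i (e := e) (i := i) hQ0 hd hτ
  have h3 := sum_le_sum fun i (hi : i ∈ range a) =>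
    near_i (e := e) (i := i) hd hf (mem_range.mp hi).le hQ hn1
  refine (add_le_add h2 h3).trans (le_of_eq ?_)
  rw [sum_const, card_range, sum_const, card_range]
  simp only [nsmul_eq_mul]
  push_cast
  ring

end Pool.Agent.H208E
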